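import Mathlib

/-!
Diagonal operators on `ℓ²` direct sums, and the isometry `c ↦ (v_j c)_j`.
-/

set_option autoImplicit false

namespace Q93.Clos

open Topology Filter

variable {𝕜 : Type} [RCLike 𝕜] {G : Type} [NormedAddCommGroup G] [InnerProductSpace 𝕜 G]

lemma summable_sq (x : lp (fun _ : ℕ => G) 2) : Summable fun i => ‖x i‖ ^ 2 := by
  have := (lp.memℓp x).summable (by norm_num)
  simpa using this

lemma norm_sq_eq (x : lp (fun _ : ℕ => G) 2) : ‖x‖ ^ 2 = ∑' i, ‖x i‖ ^ 2 := by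
  have := lp.norm_rpow_eq_tsum (p := 2) (by norm_num) x
  simpa using this

lemma mem2 {f : ℕ → G} (h : Summable fun i => ‖f i‖ ^ 2) : Memℓp f 2 := by
  apply memℓp_gen
  simpa using h

variable (𝕜) in
/-- The diagonal operator with real bounded entries `m`. -/
noncomputable def diag (m : ℕ → ℝ) (C : ℝ) (hC : ∀ i, |m i| ≤ C) :
    lp (fun _ : ℕ => G) 2 →L[𝕜] lp (fun _ : ℕ => G) 2 :=
  LinearMap.mkContinuous
    { toFun := fun x => ⟨fun i => (m i : 𝕜) • x i, by
        apply mem2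
        refine Summable.of_nonneg_of_le (fun _ => by positivity) (fun i => ?_)
          ((summable_sq x).mul_left (C ^ 2))
        rw [norm_smul, mul_pow, RCLike.norm_ofReal]
        gcongr
        exact hC i⟩
      map_add' := fun x y => by ext i; exact smul_add _ _ _
      map_smul' := fun c x => by ext i; exact smul_comm _ _ _ } C (by
      intro x
      have hC0 : 0 ≤ C := (abs_nonneg _).trans (hC 0)
      rw [← sq_le_sq₀ (norm_nonneg _) (by positivity), mul_pow, norm_sq_eq, norm_sq_eq,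
        ← tsum_mul_left]
      refine Summable.tsum_le_tsum (fun i => ?_) (summable_sq _) ((summable_sq x).mul_left _)
      change ‖(m i : 𝕜) • x i‖ ^ 2 ≤ _
      rw [norm_smul, mul_pow, RCLike.norm_ofReal]
      gcongr
      exact hC i)

lemma diag_apply (m : ℕ → ℝ) (C : ℝ) (hC : ∀ i, |m i| ≤ C) (x : lp (fun _ : ℕ => G) 2) (i : ℕ) :
    diag 𝕜 m C hC x i = (m i : 𝕜) • x i := rfl

lemma diag_symm (m : ℕ → ℝ) (C : ℝ) (hC : ∀ i, |m i| ≤ C) (x y : lp (fun _ : ℕ => G) 2) :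
    inner 𝕜 (diag 𝕜 m C hC x) y = inner 𝕜 x (diag 𝕜 m C hC y) := by
  rw [lp.inner_eq_tsum, lp.inner_eq_tsum]
  congr 1
  ext i
  rw [diag_apply, diag_apply, inner_smul_left, inner_smul_right]
  simp

/-- The isometry `c ↦ (v_j c)_j`. -/
noncomputable def iso (v : ℕ → ℝ) (hv : HasSum (fun j => v j ^ 2) 1) :
    G →ₗᵢ[𝕜] lp (fun _ : ℕ => G) 2 where
  toFun := fun c => ⟨fun j => (v j : 𝕜) • c, by
    apply mem2
    have : (fun i => ‖(v i : 𝕜) • c‖ ^ 2) = fun i => v i ^ 2 * ‖c‖ ^ 2 := by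
      ext i; rw [norm_smul, mul_pow, RCLike.norm_ofReal, sq_abs]
    rw [this]
    exact hv.summable.mul_right _⟩
  map_add' := fun x y => by ext i; exact smul_add _ _ _
  map_smul' := fun c x => by ext i; exact smul_comm _ _ _
  norm_map' := fun c => by
    rw [← sq_eq_sq₀ (norm_nonneg _) (norm_nonneg _), norm_sq_eq]
    change ∑' i, ‖(v i : 𝕜) • c‖ ^ 2 = _
    have : (fun i => ‖(v i : 𝕜) • c‖ ^ 2) = fun i => v i ^ 2 * ‖c‖ ^ 2 := by
      ext i; rw [norm_smul, mul_pow, RCLike.norm_ofReal, sq_abs]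
    rw [this, tsum_mul_right, hv.tsum_eq, one_mul]

lemma iso_apply (v : ℕ → ℝ) (hv : HasSum (fun j => v j ^ 2) 1) (c : G) (j : ℕ) :
    (iso (𝕜 := 𝕜) v hv c) j = (v j : 𝕜) • c := rfl

end Q93.Clos
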