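import Pool.Agent.Q93.Clos.Graph
import Pool.Agent.Q93.Clos.Diag

/-!
The two relations `G₀ ⊆ G`.
-/

set_option autoImplicit false

namespace Q93.Clos

open Topology Filter
open scoped LinearPMap

variable {𝕜 : Type} [RCLike 𝕜]
variable {H : Type} [NormedAddCommGroup H] [InnerProductSpace 𝕜 H] [CompleteSpace H]
variable {L : Type} [NormedAddCommGroup L] [InnerProductSpace 𝕜 L] [CompleteSpace L]

/-- The data of the construction. -/
structure Data (𝕜 : Type) [RCLike 𝕜]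
    (H : Type) [NormedAddCommGroup H] [InnerProductSpace 𝕜 H] [CompleteSpace H]
    (L : Type) [NormedAddCommGroup L] [InnerProductSpace 𝕜 L] [CompleteSpace L] where
  V : L →L[𝕜] H
  Vs : H →L[𝕜] L
  K : H →L[𝕜] H
  E : L →L[𝕜] L
  β : 𝕜
  hβ0 : β ≠ 0
  hVs : ∀ x y, inner 𝕜 (Vs x) y = inner 𝕜 x (V y)
  hVV : ∀ c, Vs (V c) = c
  hKs : ∀ x y, inner 𝕜 (K x) y = inner 𝕜 x (K y)
  hKi : ∀ x, K x = 0 → x = 0
  hEs : ∀ x y, inner 𝕜 (E x) y = inner 𝕜 x (E y)
  hβ : ∀ c, Vs (K (K (V c))) = β • c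
  hKV : ∀ z c, K z = V c → z = 0
  hE : ¬ IsClosed (Set.range E)

namespace Data

variable (d : Data 𝕜 H L)

/-- The symmetric operator `S = 1 - VV* + VEV*`. -/
noncomputable def S : H →L[𝕜] H :=
  ContinuousLinearMap.id 𝕜 H - d.V.comp d.Vs + d.V.comp (d.E.comp d.Vs)

lemma S_apply (y : H) : d.S y = y - d.V (d.Vs y) + d.V (d.E (d.Vs y)) := rfl

lemma S_symm (x y : H) : inner 𝕜 (d.S x) y = inner 𝕜 x (d.S y) := by
  have h1 : ∀ (a : L) (b : H), inner 𝕜 (d.V a) b = inner 𝕜 a (d.Vs b) := by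
    intro a b
    rw [← inner_conj_symm, ← d.hVs, inner_conj_symm]
  rw [S_apply, S_apply]
  simp only [inner_add_left, inner_sub_left, inner_add_right, inner_sub_right, h1, ← d.hVs, d.hEs]

lemma Vs_S (y : H) : d.Vs (d.S y) = d.E (d.Vs y) := by
  rw [S_apply, map_add, map_sub, d.hVV, d.hVV, sub_self, zero_add]

/-- The minimal relation. -/
def G0 : Submodule 𝕜 (H × H) where
  carrier := {p | p.1 = d.K p.2 ∧ d.Vs p.2 = 0}
  add_mem' := by
    rintro ⟨a, b⟩ ⟨a', b'⟩ ⟨h1, h2⟩ ⟨h3, h4⟩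
    simp only at h1 h2 h3 h4
    subst h1 h3
    exact ⟨by simp, by simp [h2, h4]⟩
  zero_mem' := by simp
  smul_mem' := by
    rintro c ⟨a, b⟩ ⟨h1, h2⟩
    simp only at h1 h2
    subst h1
    exact ⟨by simp, by simp [h2]⟩

lemma mem_G0 (a b : H) : (a, b) ∈ d.G0 ↔ a = d.K b ∧ d.Vs b = 0 := Iff.rfl

/-- The maximal relation. -/
noncomputable def G : Submodule 𝕜 (H × H) := LinearMap.range (d.K.prod d.S : H →ₗ[𝕜] H × H)

lemma mem_G (a b : H) : (a, b) ∈ d.G ↔ ∃ y, d.K y = a ∧ d.S y = b := by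
  rw [G, LinearMap.mem_range]
  simp

/-- The continuous inverse of `y ↦ (K y, S y)`. -/
noncomputable def Y (p : H × H) : H :=
  p.2 - d.V (d.Vs p.2) + d.V (d.β⁻¹ • d.Vs (d.K (p.1 - d.K (p.2 - d.V (d.Vs p.2)))))

lemma Y_cont : Continuous d.Y := by
  unfold Y
  fun_prop

lemma Y_eq (y : H) : d.Y (d.K y, d.S y) = y := by
  have e1 : d.S y - d.V (d.Vs (d.S y)) = y - d.V (d.Vs y) := by
    rw [Vs_S, S_apply]; abel
  unfold Y
  simp only
  rw [e1, ← map_sub, sub_sub_cancel, d.hβ, smul_smul, inv_mul_cancel₀ d.hβ0, one_smul]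
  abel

lemma isClosed_G : IsClosed (d.G : Set (H × H)) := by
  have : (d.G : Set (H × H)) = {p | d.K (d.Y p) = p.1} ∩ {p | d.S (d.Y p) = p.2} := by
    ext ⟨a, b⟩
    simp only [SetLike.mem_coe, Set.mem_inter_iff, Set.mem_ofPred_eq]
    rw [mem_G]
    constructor
    · rintro ⟨y, rfl, rfl⟩
      rw [d.Y_eq]
      exact ⟨rfl, rfl⟩
    · rintro ⟨h1, h2⟩
      exact ⟨_, h1, h2⟩
  rw [this]
  exact (isClosed_eq (d.K.continuous.comp d.Y_cont) continuous_fst).inter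
    (isClosed_eq (d.S.continuous.comp d.Y_cont) continuous_snd)

lemma isClosed_G0 : IsClosed (d.G0 : Set (H × H)) := by
  have : (d.G0 : Set (H × H)) = {p | p.1 = d.K p.2} ∩ {p | d.Vs p.2 = 0} := by
    ext ⟨a, b⟩
    exact Iff.rfl
  rw [this]
  exact (isClosed_eq continuous_fst (d.K.continuous.comp continuous_snd)).inter
    (isClosed_eq (d.Vs.continuous.comp continuous_snd) continuous_const)

lemma G0_le_G : d.G0 ≤ d.G := by
  rintro ⟨a, b⟩ hab
  rw [mem_G0] at hab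
  rw [mem_G]
  refine ⟨b, hab.1.symm, ?_⟩
  rw [S_apply, hab.2]
  simp

lemma isOp_G : IsOp d.G := by
  rintro ⟨a, b⟩ hab h
  rw [mem_G] at hab
  simp only at h ⊢
  obtain ⟨y, hy, rfl⟩ := hab
  rw [h] at hy
  rw [d.hKi y hy, map_zero]

lemma isOp_G0 : IsOp d.G0 := fun x hx => d.isOp_G x (d.G0_le_G hx)

lemma mem_Gs (x w : H) : (x, w) ∈ d.G.adjoint ↔ d.S x = d.K w := by
  rw [mem_adj]
  constructor
  · intro h
    apply ext_inner_left 𝕜
    intro y
    rw [← d.S_symm, ← d.hKs]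
    exact h _ _ ((d.mem_G _ _).2 ⟨y, rfl, rfl⟩)
  · rintro h a b hab
    rw [mem_G] at hab
    obtain ⟨y, rfl, rfl⟩ := hab
    rw [d.S_symm, d.hKs, h]

lemma mem_G0s (z w : H) :
    (z, w) ∈ d.G0.adjoint ↔ z - d.K w = d.V (d.Vs (z - d.K w)) := by
  rw [mem_adj]
  constructor
  · intro h
    set u := z - d.K w with hu
    set r := u - d.V (d.Vs u) with hr
    have hr0 : d.Vs r = 0 := by rw [hr, map_sub, d.hVV, sub_self]
    have h1 := h _ _ ((d.mem_G0 _ _).2 ⟨rfl, hr0⟩)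
    rw [d.hKs] at h1
    have h2 : inner 𝕜 r u = 0 := by rw [hu, inner_sub_right, h1, sub_self]
    have h3 : inner 𝕜 r (d.V (d.Vs u)) = 0 := by rw [← d.hVs, hr0, inner_zero_left]
    have h4 : inner 𝕜 r r = 0 := by
      conv_lhs => rw [hr]
      rw [inner_sub_left]
      have a1 : inner 𝕜 u r = 0 := by rw [← inner_conj_symm, h2, map_zero]
      have a2 : inner 𝕜 (d.V (d.Vs u)) r = 0 := by rw [← inner_conj_symm, h3, map_zero]
      rw [a1, a2, sub_zero]
    rw [inner_self_eq_zero] at h4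
    rw [hr, sub_eq_zero] at h4
    exact h4
  · rintro h a b hab
    rw [mem_G0] at hab
    obtain ⟨rfl, hb⟩ := hab
    rw [d.hKs]
    have : inner 𝕜 b (z - d.K w) = 0 := by
      rw [h, ← d.hVs, hb, inner_zero_left]
    rw [inner_sub_right, sub_eq_zero] at this
    exact this

lemma isOp_G0s : IsOp d.G0.adjoint := by
  rintro ⟨z, w⟩ hzw h
  simp only at h ⊢
  subst h
  rw [mem_G0s] at hzw
  rw [zero_sub, map_neg, map_neg, neg_inj] at hzw
  exact d.hKV _ _ hzw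

lemma Gs_le_G0s : d.G.adjoint ≤ d.G0.adjoint := adj_anti d.G0_le_G

lemma isOp_Gs : IsOp d.G.adjoint := fun x hx => d.isOp_G0s x (d.Gs_le_G0s hx)

lemma ran_G0_closed : IsClosed (ran d.G0) := by
  have : ran d.G0 = {y | d.Vs y = 0} := by
    ext y
    constructor
    · rintro ⟨x, hx⟩
      exact hx.2
    · intro hy
      exact ⟨d.K y, rfl, hy⟩
  rw [this]
  exact isClosed_eq d.Vs.continuous continuous_const

lemma ran_G0s_closed : IsClosed (ran d.G0.adjoint) := by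
  have : ran d.G0.adjoint = Set.univ := by
    rw [Set.eq_univ_iff_forall]
    intro w
    refine ⟨d.K w, ?_⟩
    rw [mem_G0s, sub_self, map_zero, map_zero]
  rw [this]
  exact isClosed_univ

lemma ran_G_not : ¬ IsClosed (ran d.G) := by
  intro h
  apply d.hE
  have : Set.range d.E = d.V ⁻¹' (ran d.G) := by
    ext c
    constructor
    · rintro ⟨e, rfl⟩
      refine ⟨d.K (d.V e), ?_⟩
      rw [mem_G]
      refine ⟨d.V e, rfl, ?_⟩
      rw [S_apply, d.hVV, sub_self, zero_add]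
    · rintro ⟨x, hx⟩
      rw [mem_G] at hx
      obtain ⟨y, -, hy⟩ := hx
      refine ⟨d.Vs y, ?_⟩
      rw [← d.Vs_S, hy, d.hVV]
  rw [this]
  exact h.preimage d.V.continuous

lemma ran_Gs_not : ¬ IsClosed (ran d.G.adjoint) := by
  intro h
  apply d.hE
  have key : ∀ c, d.Vs (d.K (d.β⁻¹ • d.K (d.V c))) = c := by
    intro c
    rw [map_smul, map_smul, d.hβ, smul_smul, inv_mul_cancel₀ d.hβ0, one_smul]
  have : Set.range d.E = (fun c => d.β⁻¹ • d.K (d.V c)) ⁻¹' (ran d.G.adjoint) := by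
    ext c
    constructor
    · rintro ⟨e, rfl⟩
      set c := d.E e with hc
      refine ⟨d.K (d.β⁻¹ • d.K (d.V c)) - d.V c + d.V e, ?_⟩
      rw [mem_Gs, S_apply]
      have e1 : d.Vs (d.K (d.β⁻¹ • d.K (d.V c)) - d.V c + d.V e) = e := by
        rw [map_add, map_sub, key, d.hVV, d.hVV, sub_self, zero_add]
      rw [e1, ← hc]
      abel
    · rintro ⟨x, hx⟩
      rw [mem_Gs] at hx
      refine ⟨d.Vs x, ?_⟩
      rw [← d.Vs_S, hx]
      exact key c
  rw [this]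
  exact h.preimage (by fun_prop)

end Data

end Q93.Clos
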