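import Mathlib

/-!
Closed-range extensions of a pair of densely defined operators.
-/

set_option autoImplicit false

namespace Q93.Clos

open scoped LinearPMap

/-- The pair `(Ac, Bc)` admits a closed-range extension: there are Hilbert spaces `X`, `Y`, a
densely defined closed operator `T : dom T ⊆ X → Y` with closed range and isometries
`ιX : H₀ → X`, `ιY : H₁ → Y` with `ιY A₀ ⊆ T ιX` and `ιX B₀ ⊆ -T* ιY`, where `A₀` and `B₀` are the
closures of `Ac` and `Bc`. -/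
def HasClosedRangeExtension (𝕜 : Type) [RCLike 𝕜]
    {H₀ : Type} [NormedAddCommGroup H₀] [InnerProductSpace 𝕜 H₀] [CompleteSpace H₀]
    {H₁ : Type} [NormedAddCommGroup H₁] [InnerProductSpace 𝕜 H₁] [CompleteSpace H₁]
    (Ac : H₀ →ₗ.[𝕜] H₁) (Bc : H₁ →ₗ.[𝕜] H₀) : Prop :=
  ∃ (X : Type) (_ : NormedAddCommGroup X) (_ : InnerProductSpace 𝕜 X) (_ : CompleteSpace X)
    (Y : Type) (_ : NormedAddCommGroup Y) (_ : InnerProductSpace 𝕜 Y) (_ : CompleteSpace Y)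
    (T : X →ₗ.[𝕜] Y) (ιX : H₀ →ₗᵢ[𝕜] X) (ιY : H₁ →ₗᵢ[𝕜] Y),
    Dense (T.domain : Set X) ∧ T.IsClosed ∧ IsClosed (Set.range T) ∧
    (∀ x : Ac.closure.domain, ∃ h : ιX x ∈ T.domain, T ⟨ιX x, h⟩ = ιY (Ac.closure x)) ∧
    (∀ y : Bc.closure.domain, ∃ h : ιY y ∈ T†.domain,
      -(T† ⟨ιY y, h⟩) = ιX (Bc.closure y))

end Q93.Clos
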