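import Mathlib

/-!
Adjoint relations, direct sums of relations, and the associated operators.
-/

set_option autoImplicit false

namespace Q93.Clos

open Topology Filter
open scoped LinearPMap

variable {𝕜 : Type} [RCLike 𝕜]

section gen

variable {E F : Type} [NormedAddCommGroup E] [InnerProductSpace 𝕜 E]
  [NormedAddCommGroup F] [InnerProductSpace 𝕜 F]

lemma mem_adj (g : Submodule 𝕜 (E × F)) (x : F) (w : E) :
    (x, w) ∈ g.adjoint ↔ ∀ a b, (a, b) ∈ g → inner 𝕜 b x = inner 𝕜 a w := by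
  rw [Submodule.mem_adjoint_iff]
  simp only [sub_eq_zero]

lemma adj_anti {g h : Submodule 𝕜 (E × F)} (hgh : g ≤ h) : h.adjoint ≤ g.adjoint := by
  rintro ⟨x, w⟩ hx
  rw [mem_adj] at hx ⊢
  exact fun a b hab => hx a b (hgh hab)

lemma isClosed_adj (g : Submodule 𝕜 (E × F)) : IsClosed (g.adjoint : Set (F × E)) := by
  have : (g.adjoint : Set (F × E)) = ⋂ p : g, {q : F × E | inner 𝕜 p.1.2 q.1 = inner 𝕜 p.1.1 q.2} := by
    ext ⟨x, w⟩
    simp only [SetLike.mem_coe, mem_adj, Set.mem_iInter, Set.mem_ofPred_eq, Subtype.forall,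
      Prod.forall]
  rw [this]
  apply isClosed_iInter
  intro p
  apply isClosed_eq <;> fun_prop

lemma adj_adj [CompleteSpace E] [CompleteSpace F] (g : Submodule 𝕜 (E × F))
    (hg : IsClosed (g : Set (E × F))) : g.adjoint.adjoint = g := by
  apply le_antisymm
  · rintro ⟨p1, p2⟩ hp
    rw [mem_adj] at hp
    -- the relation as a closed subspace of the Hilbert space `WithLp 2 (E × F)`
    set g' : Submodule 𝕜 (WithLp 2 (E × F)) :=
      g.comap (WithLp.linearEquiv 2 𝕜 (E × F)).toLinearMap with hg'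
    have hcl : IsClosed (g' : Set (WithLp 2 (E × F))) :=
      hg.preimage (WithLp.prod_continuous_ofLp 2 E F)
    have : CompleteSpace g' := hcl.completeSpace_coe
    have hoo : g'ᗮᗮ = g' := Submodule.orthogonal_orthogonal g'
    have hmem : WithLp.toLp 2 (p1, p2) ∈ g'ᗮᗮ := by
      rw [Submodule.mem_orthogonal]
      intro q hq
      rw [Submodule.mem_orthogonal] at hq
      have hq' : (q.snd, -q.fst) ∈ g.adjoint := by
        rw [mem_adj]
        intro a b hab
        have := hq (WithLp.toLp 2 (a, b)) (by simpa [hg'] using hab)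
        rw [WithLp.prod_inner_apply] at this
        simp only [WithLp.ofLp_fst, WithLp.ofLp_snd] at this
        rw [inner_neg_right]
        have h2 : inner 𝕜 a q.fst + inner 𝕜 b q.snd = 0 := this
        linear_combination h2
      have h3 := hp _ _ hq'
      rw [WithLp.prod_inner_apply]
      simp only [WithLp.ofLp_fst, WithLp.ofLp_snd]
      rw [inner_neg_left] at h3
      change inner 𝕜 q.fst p1 + inner 𝕜 q.snd p2 = 0
      linear_combination -h3
    rw [hoo] at hmem
    simpa [hg'] using hmem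
  · rintro ⟨p1, p2⟩ hp
    rw [mem_adj]
    intro a b hab
    rw [mem_adj] at hab
    have := hab p1 p2 hp
    rw [← inner_conj_symm, ← this, inner_conj_symm]

/-- The relation is the graph of an operator. -/
def IsOp (g : Submodule 𝕜 (E × F)) : Prop := ∀ x ∈ g, x.fst = 0 → x.snd = 0

/-- The range of a relation. -/
def ran (g : Submodule 𝕜 (E × F)) : Set F := {y | ∃ x, (x, y) ∈ g}

lemma range_eq (g : Submodule 𝕜 (E × F)) (hg : IsOp g) :
    Set.range (g.toLinearPMap : g.toLinearPMap.domain → F) = ran g := by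
  ext y
  rw [LinearPMap.mem_range_iff, Submodule.toLinearPMap_graph_eq g hg]
  rfl

lemma dense_dom [CompleteSpace E] (g : Submodule 𝕜 (E × F)) (h : IsOp g.adjoint) :
    Dense (g.toLinearPMap.domain : Set E) := by
  rw [Submodule.dense_iff_topologicalClosure_eq_top, Submodule.topologicalClosure_eq_top_iff,
    Submodule.eq_bot_iff]
  intro z hz
  rw [Submodule.mem_orthogonal] at hz
  refine h (0, z) ?_ rfl
  rw [mem_adj]
  intro a b hab
  rw [inner_zero_right, hz a]
  rw [Submodule.toLinearPMap_domain]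
  exact Submodule.mem_map.2 ⟨(a, b), hab, rfl⟩

lemma isClosed_toPMap (g : Submodule 𝕜 (E × F)) (hg : IsOp g) (hc : IsClosed (g : Set (E × F))) :
    g.toLinearPMap.IsClosed := by
  rw [LinearPMap.IsClosed, Submodule.toLinearPMap_graph_eq g hg]
  exact hc

lemma closure_eq {f : E →ₗ.[𝕜] F} (hf : f.IsClosed) : f.closure = f := by
  apply LinearPMap.eq_of_eq_graph
  rw [← hf.isClosable.graph_closure_eq_closure_graph]
  exact IsClosed.submodule_topologicalClosure_eq hf

lemma adj_toPMap [CompleteSpace E] (g : Submodule 𝕜 (E × F)) (hg : IsOp g) (h : IsOp g.adjoint) :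
    (g.toLinearPMap)† = g.adjoint.toLinearPMap := by
  apply LinearPMap.eq_of_eq_graph
  rw [LinearPMap.adjoint_graph_eq_graph_adjoint (dense_dom g h),
    Submodule.toLinearPMap_graph_eq g hg, Submodule.toLinearPMap_graph_eq _ h]

lemma toPMap_mono {g h : Submodule 𝕜 (E × F)} (hh : IsOp h) (hgh : g ≤ h) :
    g.toLinearPMap ≤ h.toLinearPMap := by
  apply LinearPMap.le_of_le_graph
  rw [Submodule.toLinearPMap_graph_eq g (fun x hx => hh x (hgh hx)),
    Submodule.toLinearPMap_graph_eq h hh]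
  exact hgh

lemma neg_closed {f : E →ₗ.[𝕜] F} (hf : f.IsClosed) : (-f).IsClosed := by
  rw [LinearPMap.IsClosed] at hf ⊢
  have : ((-f).graph : Set (E × F)) = (fun p : E × F => (p.1, -p.2)) ⁻¹' (f.graph : Set (E × F)) := by
    ext ⟨x, y⟩
    simp only [SetLike.mem_coe, LinearPMap.mem_graph_iff, Set.mem_preimage]
    constructor
    · rintro ⟨a, rfl, rfl⟩
      exact ⟨a, rfl, by simp [LinearPMap.neg_apply]⟩
    · rintro ⟨a, rfl, h⟩
      refine ⟨a, rfl, ?_⟩
      simp [LinearPMap.neg_apply, h]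
  rw [this]
  exact hf.preimage (by fun_prop)

lemma neg_adj [CompleteSpace E] (f : E →ₗ.[𝕜] F) (hf : Dense (f.domain : Set E)) :
    (-f)† = -(f†) := by
  apply LinearPMap.eq_of_eq_graph
  rw [LinearPMap.adjoint_graph_eq_graph_adjoint (T := -f) hf]
  ext ⟨x, w⟩
  rw [mem_adj, LinearPMap.mem_graph_iff]
  constructor
  · intro h
    have h2 : (x, -w) ∈ f.graph.adjoint := by
      rw [mem_adj]
      intro a b hab
      have hab' : (a, -b) ∈ (-f).graph := by
        rw [LinearPMap.mem_graph_iff] at hab ⊢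
        obtain ⟨c, hc, hc'⟩ := hab
        refine ⟨c, hc, ?_⟩
        rw [LinearPMap.neg_apply]
        simp only at hc'
        rw [← hc']
      have := h _ _ hab'
      rw [inner_neg_left] at this
      rw [inner_neg_right, ← this, neg_neg]
    rw [← LinearPMap.adjoint_graph_eq_graph_adjoint hf, LinearPMap.mem_graph_iff] at h2
    obtain ⟨c, hc, hc'⟩ := h2
    refine ⟨c, hc, ?_⟩
    rw [LinearPMap.neg_apply]
    simp only at hc' ⊢
    rw [hc', neg_neg]
  · rintro ⟨c, hc, hc'⟩ a b hab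
    rw [LinearPMap.neg_apply] at hc'
    simp only at hc hc'
    have h2 : (x, -w) ∈ f.graph.adjoint := by
      rw [← LinearPMap.adjoint_graph_eq_graph_adjoint hf, LinearPMap.mem_graph_iff]
      exact ⟨c, hc, by simp only; rw [← hc', neg_neg]⟩
    rw [mem_adj] at h2
    have hab' : (a, -b) ∈ f.graph := by
      rw [LinearPMap.mem_graph_iff] at hab ⊢
      obtain ⟨d, hd, hd'⟩ := hab
      refine ⟨d, hd, ?_⟩
      rw [LinearPMap.neg_apply] at hd'
      simp only at hd' ⊢
      rw [← hd', neg_neg]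
    have := h2 _ _ hab'
    rw [inner_neg_left, inner_neg_right] at this
    exact neg_injective this

lemma neg_mono {f g : E →ₗ.[𝕜] F} (h : f ≤ g) : -f ≤ -g := by
  refine ⟨h.1, fun x y hxy => ?_⟩
  rw [LinearPMap.neg_apply, LinearPMap.neg_apply]
  congr 1
  exact h.2 hxy

end gen

section dsum

variable {E F : Type} [NormedAddCommGroup E] [InnerProductSpace 𝕜 E]
  [NormedAddCommGroup F] [InnerProductSpace 𝕜 F]
  {E' F' : Type} [NormedAddCommGroup E'] [InnerProductSpace 𝕜 E']
  [NormedAddCommGroup F'] [InnerProductSpace 𝕜 F']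

/-- The Hilbert direct sum of two relations. -/
def dsum (g : Submodule 𝕜 (E × F)) (g' : Submodule 𝕜 (E' × F')) :
    Submodule 𝕜 (WithLp 2 (E × E') × WithLp 2 (F × F')) where
  carrier := {p | (p.1.fst, p.2.fst) ∈ g ∧ (p.1.snd, p.2.snd) ∈ g'}
  add_mem' := fun {a b} ha hb => ⟨g.add_mem ha.1 hb.1, g'.add_mem ha.2 hb.2⟩
  zero_mem' := ⟨g.zero_mem, g'.zero_mem⟩
  smul_mem' := fun c x hx => ⟨g.smul_mem c hx.1, g'.smul_mem c hx.2⟩

lemma mem_dsum (g : Submodule 𝕜 (E × F)) (g' : Submodule 𝕜 (E' × F'))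
    (p : WithLp 2 (E × E') × WithLp 2 (F × F')) :
    p ∈ dsum g g' ↔ (p.1.fst, p.2.fst) ∈ g ∧ (p.1.snd, p.2.snd) ∈ g' := Iff.rfl

lemma dsum_mono {g h : Submodule 𝕜 (E × F)} {g' h' : Submodule 𝕜 (E' × F')} (h1 : g ≤ h)
    (h2 : g' ≤ h') : dsum g g' ≤ dsum h h' := fun _ hp => ⟨h1 hp.1, h2 hp.2⟩

lemma isOp_dsum {g : Submodule 𝕜 (E × F)} {g' : Submodule 𝕜 (E' × F')} (h : IsOp g)
    (h' : IsOp g') : IsOp (dsum g g') := by
  rintro ⟨x, y⟩ ⟨h1, h2⟩ hx
  simp only at hx
  subst hx
  have e1 := h _ h1 (by rfl)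
  have e2 := h' _ h2 (by rfl)
  simp only at e1 e2 ⊢
  apply WithLp.ofLp_injective 2
  exact Prod.ext e1 e2

lemma dsum_adj (g : Submodule 𝕜 (E × F)) (g' : Submodule 𝕜 (E' × F')) :
    (dsum g g').adjoint = dsum g.adjoint g'.adjoint := by
  ext ⟨x, w⟩
  rw [mem_adj, mem_dsum]
  simp only
  rw [mem_adj, mem_adj]
  constructor
  · intro h
    constructor
    · intro a b hab
      have := h (WithLp.toLp 2 (a, 0)) (WithLp.toLp 2 (b, 0)) ⟨hab, g'.zero_mem⟩
      rw [WithLp.prod_inner_apply, WithLp.prod_inner_apply] at this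
      simpa using this
    · intro a b hab
      have := h (WithLp.toLp 2 (0, a)) (WithLp.toLp 2 (0, b)) ⟨g.zero_mem, hab⟩
      rw [WithLp.prod_inner_apply, WithLp.prod_inner_apply] at this
      simpa using this
  · rintro ⟨h1, h2⟩ a b ⟨h3, h4⟩
    rw [WithLp.prod_inner_apply, WithLp.prod_inner_apply]
    have e1 := h1 _ _ h3
    have e2 := h2 _ _ h4
    change inner 𝕜 b.fst x.fst + inner 𝕜 b.snd x.snd = inner 𝕜 a.fst w.fst + inner 𝕜 a.snd w.snd
    rw [e1, e2]

lemma isClosed_dsum {g : Submodule 𝕜 (E × F)} {g' : Submodule 𝕜 (E' × F')}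
    (h : IsClosed (g : Set (E × F))) (h' : IsClosed (g' : Set (E' × F'))) :
    IsClosed (dsum g g' : Set (WithLp 2 (E × E') × WithLp 2 (F × F'))) := by
  have e : (dsum g g' : Set (WithLp 2 (E × E') × WithLp 2 (F × F'))) =
      (fun p : WithLp 2 (E × E') × WithLp 2 (F × F') => (p.1.fst, p.2.fst)) ⁻¹' (g : Set (E × F)) ∩
      (fun p : WithLp 2 (E × E') × WithLp 2 (F × F') => (p.1.snd, p.2.snd)) ⁻¹'
        (g' : Set (E' × F')) := rfl
  rw [e]
  have c1 : Continuous fun p : WithLp 2 (E × E') => p.fst :=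
    continuous_fst.comp (WithLp.prod_continuous_ofLp 2 E E')
  have c2 : Continuous fun p : WithLp 2 (E × E') => p.snd :=
    continuous_snd.comp (WithLp.prod_continuous_ofLp 2 E E')
  have c3 : Continuous fun p : WithLp 2 (F × F') => p.fst :=
    continuous_fst.comp (WithLp.prod_continuous_ofLp 2 F F')
  have c4 : Continuous fun p : WithLp 2 (F × F') => p.snd :=
    continuous_snd.comp (WithLp.prod_continuous_ofLp 2 F F')
  exact (h.preimage ((c1.comp continuous_fst).prodMk (c3.comp continuous_snd))).inter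
    (h'.preimage ((c2.comp continuous_fst).prodMk (c4.comp continuous_snd)))

lemma mem_ran_dsum (g : Submodule 𝕜 (E × F)) (g' : Submodule 𝕜 (E' × F'))
    (y : WithLp 2 (F × F')) : y ∈ ran (dsum g g') ↔ y.fst ∈ ran g ∧ y.snd ∈ ran g' := by
  constructor
  · rintro ⟨x, h1, h2⟩
    exact ⟨⟨_, h1⟩, ⟨_, h2⟩⟩
  · rintro ⟨⟨x, h1⟩, ⟨x', h2⟩⟩
    exact ⟨WithLp.toLp 2 (x, x'), h1, h2⟩

lemma isClosed_ran_dsum {g : Submodule 𝕜 (E × F)} {g' : Submodule 𝕜 (E' × F')}
    (h : IsClosed (ran g)) (h' : IsClosed (ran g')) : IsClosed (ran (dsum g g')) := by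
  have e : ran (dsum g g') = (fun p : WithLp 2 (F × F') => p.fst) ⁻¹' (ran g) ∩
      (fun p : WithLp 2 (F × F') => p.snd) ⁻¹' (ran g') := by
    ext y
    exact mem_ran_dsum g g' y
  rw [e]
  exact (h.preimage (continuous_fst.comp (WithLp.prod_continuous_ofLp 2 F F'))).inter
    (h'.preimage (continuous_snd.comp (WithLp.prod_continuous_ofLp 2 F F')))

lemma ran_dsum_left {g : Submodule 𝕜 (E × F)} {g' : Submodule 𝕜 (E' × F')}
    (h : IsClosed (ran (dsum g g'))) : IsClosed (ran g) := by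
  have e : ran g = (fun y : F => WithLp.toLp 2 (y, (0 : F'))) ⁻¹' (ran (dsum g g')) := by
    ext y
    rw [Set.mem_preimage, mem_ran_dsum]
    constructor
    · intro hy
      exact ⟨hy, 0, g'.zero_mem⟩
    · intro hy
      exact hy.1
  rw [e]
  exact h.preimage ((WithLp.prod_continuous_toLp 2 F F').comp (by fun_prop))

lemma ran_dsum_right {g : Submodule 𝕜 (E × F)} {g' : Submodule 𝕜 (E' × F')}
    (h : IsClosed (ran (dsum g g'))) : IsClosed (ran g') := by
  have e : ran g' = (fun y : F' => WithLp.toLp 2 ((0 : F), y)) ⁻¹' (ran (dsum g g')) := by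
    ext y
    rw [Set.mem_preimage, mem_ran_dsum]
    constructor
    · intro hy
      exact ⟨⟨0, g.zero_mem⟩, hy⟩
    · intro hy
      exact hy.2
  rw [e]
  exact h.preimage ((WithLp.prod_continuous_toLp 2 F F').comp (by fun_prop))

end dsum

end Q93.Clos
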