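import Pool.Agent.Q93.Clos.Defs
import Pool.Agent.Q93.Clos.Data

/-!
The pair built from a `Data`.
-/

set_option autoImplicit false

namespace Q93.Clos

open Topology Filter
open scoped LinearPMap

variable {𝕜 : Type} [RCLike 𝕜]
variable {H : Type} [NormedAddCommGroup H] [InnerProductSpace 𝕜 H] [CompleteSpace H]
variable {L : Type} [NormedAddCommGroup L] [InnerProductSpace 𝕜 L] [CompleteSpace L]

theorem main (d : Data 𝕜 H L) :
    ∃ (Ac Bc : WithLp 2 (H × H) →ₗ.[𝕜] WithLp 2 (H × H)),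
      Dense (Ac.domain : Set (WithLp 2 (H × H))) ∧ Dense (Bc.domain : Set (WithLp 2 (H × H))) ∧
      Ac ≤ -Bc† ∧ Ac.IsClosable ∧ Bc.IsClosable ∧ HasClosedRangeExtension 𝕜 Ac Bc ∧
      ¬ IsClosed (Set.range Ac.closure) ∧ ¬ IsClosed (Set.range (-(Bc.closure†))) := by
  -- double adjoints
  have a1 : d.G.adjoint.adjoint = d.G := adj_adj _ d.isClosed_G
  have a2 : d.G0.adjoint.adjoint = d.G0 := adj_adj _ d.isClosed_G0
  -- the relations
  set A := dsum d.G0 d.G.adjoint with hA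
  set B := dsum d.G.adjoint d.G0 with hB
  set C := dsum d.G0 d.G0.adjoint with hC
  have opA : IsOp A := isOp_dsum d.isOp_G0 d.isOp_Gs
  have opB : IsOp B := isOp_dsum d.isOp_Gs d.isOp_G0
  have opC : IsOp C := isOp_dsum d.isOp_G0 d.isOp_G0s
  have adjA : A.adjoint = dsum d.G0.adjoint d.G := by rw [hA, dsum_adj, a1]
  have adjB : B.adjoint = dsum d.G d.G0.adjoint := by rw [hB, dsum_adj, a1]
  have adjC : C.adjoint = dsum d.G0.adjoint d.G0 := by rw [hC, dsum_adj, a2]
  have opA' : IsOp A.adjoint := by rw [adjA]; exact isOp_dsum d.isOp_G0s d.isOp_G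
  have opB' : IsOp B.adjoint := by rw [adjB]; exact isOp_dsum d.isOp_G d.isOp_G0s
  have opC' : IsOp C.adjoint := by rw [adjC]; exact isOp_dsum d.isOp_G0s d.isOp_G0
  have clA : IsClosed (A : Set (WithLp 2 (H × H) × WithLp 2 (H × H))) :=
    isClosed_dsum d.isClosed_G0 (isClosed_adj _)
  have clB : IsClosed (B : Set (WithLp 2 (H × H) × WithLp 2 (H × H))) :=
    isClosed_dsum (isClosed_adj _) d.isClosed_G0
  have clC : IsClosed (C : Set (WithLp 2 (H × H) × WithLp 2 (H × H))) :=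
    isClosed_dsum d.isClosed_G0 (isClosed_adj _)
  have dA : Dense (A.toLinearPMap.domain : Set (WithLp 2 (H × H))) := dense_dom A opA'
  have dB : Dense (B.toLinearPMap.domain : Set (WithLp 2 (H × H))) := dense_dom B opB'
  have dC : Dense (C.toLinearPMap.domain : Set (WithLp 2 (H × H))) := dense_dom C opC'
  have cA : A.toLinearPMap.IsClosed := isClosed_toPMap A opA clA
  have cB : (-B.toLinearPMap).IsClosed := neg_closed (isClosed_toPMap B opB clB)
  have eB : (-B.toLinearPMap)† = -(B.adjoint.toLinearPMap) := by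
    rw [neg_adj _ dB, adj_toPMap B opB opB']
  have eC : C.toLinearPMap† = C.adjoint.toLinearPMap := adj_toPMap C opC opC'
  refine ⟨A.toLinearPMap, -B.toLinearPMap, dA, dB, ?_, cA.isClosable, cB.isClosable, ?_, ?_, ?_⟩
  · rw [eB, neg_neg]
    apply toPMap_mono opB'
    rw [adjB, hA]
    exact dsum_mono d.G0_le_G d.Gs_le_G0s
  · refine ⟨WithLp 2 (H × H), inferInstance, inferInstance, inferInstance,
      WithLp 2 (H × H), inferInstance, inferInstance, inferInstance,
      C.toLinearPMap, LinearIsometry.id, LinearIsometry.id, dC, isClosed_toPMap C opC clC, ?_,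
      ?_, ?_⟩
    · rw [range_eq C opC]
      exact isClosed_ran_dsum d.ran_G0_closed d.ran_G0s_closed
    · rw [closure_eq cA]
      have hle : A.toLinearPMap ≤ C.toLinearPMap := toPMap_mono opC (dsum_mono le_rfl d.Gs_le_G0s)
      intro x
      exact ⟨hle.1 x.2, (hle.2 rfl).symm⟩
    · rw [closure_eq cB]
      have hle : -B.toLinearPMap ≤ -(C.toLinearPMap†) := by
        apply neg_mono
        rw [eC]
        apply toPMap_mono opC'
        rw [adjC, hB]
        exact dsum_mono d.Gs_le_G0s le_rfl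
      intro y
      refine ⟨hle.1 y.2, ?_⟩
      exact (hle.2 (x := y) (y := ⟨y, hle.1 y.2⟩) rfl).symm
  · rw [closure_eq cA, range_eq A opA]
    intro h
    exact d.ran_Gs_not (ran_dsum_right h)
  · rw [closure_eq cB, eB, neg_neg, range_eq _ opB', adjB]
    intro h
    exact d.ran_G_not (ran_dsum_left h)

/-- The weights `v_j = (4/5)(3/5)^j`. -/
noncomputable def v (j : ℕ) : ℝ := 4 / 5 * (3 / 5) ^ j

lemma v_pos (j : ℕ) : 0 < v j := by unfold v; positivity

lemma v_le (j : ℕ) : |v j| ≤ 1 := by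
  rw [abs_of_pos (v_pos j)]
  unfold v
  have : ((3 : ℝ) / 5) ^ j ≤ 1 := pow_le_one₀ (by norm_num) (by norm_num)
  linarith

lemma v_sum : HasSum (fun j => v j ^ 2) 1 := by
  have h := (hasSum_geometric_of_lt_one (r := (9 : ℝ) / 25) (by norm_num) (by norm_num)).mul_left
    (16 / 25 : ℝ)
  have e : (fun i : ℕ => (16 / 25 : ℝ) * (9 / 25) ^ i) = fun j => v j ^ 2 := by
    ext j
    unfold v
    rw [mul_pow, ← pow_mul, mul_comm j 2, pow_mul]
    norm_num
  rw [e] at h
  have e2 : (16 / 25 : ℝ) * (1 - 9 / 25)⁻¹ = 1 := by norm_num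
  rwa [e2] at h

lemma v_sum4 : HasSum (fun j => v j ^ 4) (8 / 17) := by
  have h := (hasSum_geometric_of_lt_one (r := (81 : ℝ) / 625) (by norm_num) (by norm_num)).mul_left
    (256 / 625 : ℝ)
  have e : (fun i : ℕ => (256 / 625 : ℝ) * (81 / 625) ^ i) = fun j => v j ^ 4 := by
    ext j
    unfold v
    rw [mul_pow, ← pow_mul, mul_comm j 4, pow_mul]
    norm_num
  rw [e] at h
  have e2 : (256 / 625 : ℝ) * (1 - 81 / 625)⁻¹ = 8 / 17 := by norm_num
  rwa [e2] at h

/-- The eigenvalues of `E`. -/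
noncomputable def ev (n : ℕ) : ℝ := 1 / ((n : ℝ) + 1)

lemma ev_pos (n : ℕ) : 0 < ev n := by unfold ev; positivity

lemma ev_le (n : ℕ) : |ev n| ≤ 1 := by
  rw [abs_of_pos (ev_pos n)]
  unfold ev
  rw [div_le_one (by positivity)]
  have : (0 : ℝ) ≤ n := Nat.cast_nonneg n
  linarith

variable (𝕜) in
/-- The space `ℓ²`. -/
abbrev L2 : Type := lp (fun _ : ℕ => 𝕜) 2

lemma ev_memℓp : Memℓp (fun n => (ev n : 𝕜)) 2 := by
  apply mem2
  have h : Summable fun n : ℕ => (1 : ℝ) / ((n : ℝ) + 1) ^ 2 := by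
    have h0 : Summable fun n : ℕ => (1 : ℝ) / (n : ℝ) ^ 2 :=
      Real.summable_one_div_nat_pow.2 (by norm_num)
    have := (summable_nat_add_iff 1).2 h0
    simpa using this
  refine h.congr fun n => ?_
  rw [RCLike.norm_ofReal, abs_of_pos (ev_pos n)]
  unfold ev
  rw [div_pow, one_pow]

lemma E_range_not : ¬ IsClosed (Set.range (diag 𝕜 ev 1 ev_le : L2 𝕜 →L[𝕜] L2 𝕜)) := by
  intro h
  -- the vector `(1/(n+1))`
  set c : L2 𝕜 := ⟨fun n => (ev n : 𝕜), ev_memℓp⟩ with hc
  have hmem : c ∈ Set.range (diag 𝕜 ev 1 ev_le : L2 𝕜 →L[𝕜] L2 𝕜) := by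
    have hs : HasSum (fun n : ℕ => (lp.single 2 n (c n) : L2 𝕜)) c :=
      lp.hasSum_single (by norm_num) c
    refine h.mem_of_tendsto hs (Filter.Eventually.of_forall fun s => ?_)
    refine ⟨∑ n ∈ s, (lp.single 2 n (1 : 𝕜) : L2 𝕜), ?_⟩
    rw [map_sum]
    refine Finset.sum_congr rfl fun n _ => ?_
    ext k
    rw [diag_apply, lp.single_apply, lp.single_apply]
    by_cases hk : k = n
    · subst hk
      simp [hc]
    · simp [hk]
  obtain ⟨x, hx⟩ := hmem
  have h1 : ∀ n, x n = 1 := by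
    intro n
    have := congrArg (fun z : L2 𝕜 => z n) hx
    simp only [diag_apply, hc] at this
    have h0 : (ev n : 𝕜) ≠ 0 := by exact_mod_cast (ev_pos n).ne'
    rw [smul_eq_mul] at this
    exact mul_left_cancel₀ h0 (by rw [this, mul_one])
  have hs := summable_sq x
  simp only [h1, norm_one, one_pow] at hs
  exact (summable_const_iff _).1 hs |> one_ne_zero

lemma apply_eq_of_eq {G : Type} [NormedAddCommGroup G] {x y : lp (fun _ : ℕ => G) 2} (h : x = y)
    (i : ℕ) : x i = y i := by rw [h]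

lemma v_ne (j : ℕ) : (v j : 𝕜) ≠ 0 := by exact_mod_cast (v_pos j).ne'

lemma inner_KKV (c e : L2 𝕜) :
    inner 𝕜 (diag 𝕜 v 1 v_le (diag 𝕜 v 1 v_le (iso (𝕜 := 𝕜) v v_sum c))) (iso (𝕜 := 𝕜) v v_sum e) =
      ((8 / 17 : ℝ) : 𝕜) * inner 𝕜 c e := by
  rw [lp.inner_eq_tsum]
  have : ∀ i, inner 𝕜 ((diag 𝕜 v 1 v_le (diag 𝕜 v 1 v_le (iso (𝕜 := 𝕜) v v_sum c))) i)
      ((iso (𝕜 := 𝕜) v v_sum e) i) = ((v i ^ 4 : ℝ) : 𝕜) * inner 𝕜 c e := by
    intro i
    rw [diag_apply, diag_apply, iso_apply, iso_apply]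
    simp only [inner_smul_left, inner_smul_right, RCLike.conj_ofReal]
    push_cast
    ring
  simp only [this]
  rw [tsum_mul_right]
  congr 1
  exact ((RCLike.hasSum_ofReal 𝕜).2 v_sum4).tsum_eq

variable (𝕜) in
/-- The isometry `V`. -/
noncomputable def VV : L2 𝕜 →L[𝕜] lp (fun _ : ℕ => L2 𝕜) 2 :=
  (iso (𝕜 := 𝕜) (G := L2 𝕜) v v_sum).toContinuousLinearMap

variable (𝕜) in
/-- The concrete data. -/
noncomputable def data : Data 𝕜 (lp (fun _ : ℕ => L2 𝕜) 2) (L2 𝕜) where
  V := VV 𝕜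
  Vs := ContinuousLinearMap.adjoint (VV 𝕜)
  K := diag 𝕜 v 1 v_le
  E := diag 𝕜 ev 1 ev_le
  β := ((8 / 17 : ℝ) : 𝕜)
  hβ0 := by
    have : (8 / 17 : ℝ) ≠ 0 := by norm_num
    exact_mod_cast this
  hVs := fun x y => ContinuousLinearMap.adjoint_inner_left _ _ _
  hVV := by
    intro c
    apply ext_inner_right 𝕜
    intro y
    rw [ContinuousLinearMap.adjoint_inner_left]
    exact (iso (𝕜 := 𝕜) (G := L2 𝕜) v v_sum).inner_map_map c y
  hKs := diag_symm v 1 v_le
  hKi := by
    intro x hx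
    apply Subtype.ext
    funext i
    have := apply_eq_of_eq hx i
    rw [diag_apply] at this
    exact (smul_eq_zero.1 this).resolve_left (v_ne i)
  hEs := diag_symm ev 1 ev_le
  hβ := by
    intro c
    apply ext_inner_right 𝕜
    intro y
    rw [ContinuousLinearMap.adjoint_inner_left, inner_smul_left, RCLike.conj_ofReal]
    exact inner_KKV c y
  hKV := by
    intro z c h
    have h1 : ∀ i, z i = c := by
      intro i
      have := apply_eq_of_eq h i
      rw [diag_apply] at this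
      change (v i : 𝕜) • z i = (v i : 𝕜) • c at this
      exact smul_right_injective _ (v_ne i) this
    have hs := summable_sq z
    simp only [h1] at hs
    have h2 := (summable_const_iff _).1 hs
    have h3 : c = 0 := by
      rw [← norm_eq_zero]
      exact pow_eq_zero_iff (two_ne_zero) |>.1 h2
    apply Subtype.ext
    funext i
    rw [h1 i, h3]
    rfl
  hE := E_range_not

end Q93.Clos
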